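import Pool.Agent.H448R2.GC.F2

/-!
# The variance of the Moebius function in short intervals is not `o(H)`

Unconditional lower bound of the conjectured order for the Good-Churchhouse variance
`V(X;H) = (1/X) ∫_X^{2X} |∑_{|n-x|<H/2} μ(n)|^2 dx`.
-/

open MeasureTheory

namespace Pool.Agent.Results.MP_0575cc_nt.VarianceLowerBound

/-- For `0 ≤ θ₁ < θ₂ < 1` with `1/(1-θ₁) + 1 < 1/(1-θ₂)` there are `c > 0` and `C` such that for all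
`X₀ ≥ C` there are `X ∈ [X₀, X₀^C]` and `H` with `X^θ₁ < H < X^θ₂` and `V(X;H) ≥ c H`. -/
theorem result (θ₁ θ₂ : ℝ) (h1 : 0 ≤ θ₁) (h12 : θ₁ < θ₂) (h2 : θ₂ < 1)
    (h : 1 / (1 - θ₁) + 1 < 1 / (1 - θ₂)) :
    ∃ c C : ℝ, 0 < c ∧ 1 ≤ C ∧ ∀ X₀ : ℝ, C ≤ X₀ → ∃ X H : ℝ,
      X₀ ≤ X ∧ X ≤ X₀ ^ C ∧ X ^ θ₁ < H ∧ H < X ^ θ₂ ∧
      c * H ≤ (1 / X) * ∫ x in X..2 * X,
        (∑ n ∈ (Finset.range (⌈x + H⌉₊ + 1)).filter (fun n : ℕ => |(n : ℝ) - x| < H / 2),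
          ((ArithmeticFunction.moebius n : ℤ) : ℝ)) ^ 2 := by
  obtain ⟨c, C, hc, hC, hX⟩ := Pool.Agent.H448R2.GC.theta θ₁ θ₂ h1 h12 h2 h
  refine ⟨c, C, hc, hC, fun X₀ hX₀ => ?_⟩
  obtain ⟨X, H, a1, a2, a3, a4, a5⟩ := hX X₀ hX₀
  exact ⟨X, H, a1, a2, a3, a4, a5⟩

end Pool.Agent.Results.MP_0575cc_nt.VarianceLowerBound
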